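import Mathlib
import Pool.Agent.Lib.MP_4bcb19_an.Curvature

/-!
# MP_4bcb19_an, literal wording: fewer than `n - 1` points of extreme curvature

`p = x ^ 4 + 2 x ^ 2` has exactly one curvature-critical point, `x = 0`.
-/

namespace Pool.Agent.Results.MP_4bcb19_an.AtLeastFails

open Polynomial

/-- The signed curvature `p'' / (1 + p'²) ^ (3/2)` of the graph of `p`. -/
noncomputable def curvature (p : ℝ[X]) (x : ℝ) : ℝ :=
  (derivative (derivative p)).eval x / (1 + (derivative p).eval x ^ 2) ^ ((3 : ℝ) / 2)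

/-- The polynomial `x ^ 4 + 2 x ^ 2` has degree `4` and exactly one curvature-critical point,
hence at most one point of extreme curvature. -/
theorem result :
    (X ^ 4 + 2 * X ^ 2 : ℝ[X]).natDegree = 4 ∧
      {x : ℝ | deriv (curvature (X ^ 4 + 2 * X ^ 2)) x = 0} = {0} ∧
      {x : ℝ | IsLocalExtr (curvature (X ^ 4 + 2 * X ^ 2)) x} ⊆ {0} := by
  obtain ⟨hp1, hp2⟩ := MP_4bcb19_an.quartic
  refine ⟨hp1, hp2, ?_⟩
  intro x hx
  have h : deriv (curvature (X ^ 4 + 2 * X ^ 2)) x = 0 := IsLocalExtr.deriv_eq_zero hx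
  have h2 : x ∈ {x : ℝ | deriv (MP_4bcb19_an.kappa (X ^ 4 + 2 * X ^ 2)) x = 0} := h
  rwa [hp2] at h2

end Pool.Agent.Results.MP_4bcb19_an.AtLeastFails
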