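import Mathlib
import Pool.Agent.Lib.MP_4bcb19_an.Total

/-!
# MP_4bcb19_an: the graph of a real polynomial of degree `n > 2` has at most `n - 1`
curvature-critical points

Proof sketch. Put `q = p'`, `S = q / √(1 + q²)`, so that `κ = S'`, and let
`F(x) = x - q (1 + q²) / q'` be the Newton map of `S` and `G_α = q'² - α² (1 + q²)³` (its roots are
the solutions of `κ = ± α`). Let `n(α)` be the number of roots of `G_α` in
`Ω = {x : Im x · Im F(x) < 0}`. With `L = x κ - S = κ F` (Legendre transform) one has locally
`L(x) - L(y) = (κ(x) - κ(y)) g(x)`, `g(y) = y`, `0 < g'(y) < 1`; hence a root of `G_α` can enter or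
leave `Ω` only at a point with `Im x · Im F(x) = 0`, and does so in the direction of decreasing `α`.
So `n(α)` is nonincreasing, and at the level `α = |κ(y)|` of a real critical point `y` with
`κ(y) ≠ 0` it jumps by at least `mult + 1 - #(sides of y on which |κ| < |κ(y)|)`. For small `α` the
number `n(α)` is at most the number of nonreal zeros of `q'`. Summing up gives the bound.
-/

namespace Pool.Agent.Results.MP_4bcb19_an.AtMostNMinusOne

open Polynomial

/-- The signed curvature `p'' / (1 + p'²) ^ (3/2)` of the graph of `p`. -/
noncomputable def curvature (p : ℝ[X]) (x : ℝ) : ℝ :=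
  (derivative (derivative p)).eval x / (1 + (derivative p).eval x ^ 2) ^ ((3 : ℝ) / 2)

/-- The numerator `p''' (1 + p'²) - 3 p' p''²` of the derivative of the curvature. -/
noncomputable def numerator (p : ℝ[X]) : ℝ[X] :=
  derivative (derivative (derivative p)) * (1 + derivative p ^ 2) -
    3 * derivative p * derivative (derivative p) ^ 2

/-- A real polynomial `p` of degree `n > 2` has at most `n - 1` curvature-critical points, even
counted with multiplicity (as real zeros of the numerator of `κ'`); in particular at most `n - 1`
points of extreme curvature. -/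
theorem result (p : ℝ[X]) (hp : 2 < p.natDegree) :
    {x : ℝ | deriv (curvature p) x = 0}.Finite ∧
    {x : ℝ | deriv (curvature p) x = 0}.ncard ≤ p.natDegree - 1 ∧
    {x : ℝ | IsLocalExtr (curvature p) x}.Finite ∧
    {x : ℝ | IsLocalExtr (curvature p) x}.ncard ≤ p.natDegree - 1 ∧
    Multiset.card (numerator p).roots ≤ p.natDegree - 1 := by
  classical
  have hd : (derivative p).natDegree = p.natDegree - 1 := by
    exact natDegree_eq_of_degree_eq_some (degree_derivative (by omega))
  have h1 : 1 ≤ (derivative p).natDegree := by omega
  have hN : numerator p ≠ 0 := MP_4bcb19_an.NN_ne_zero (derivative p) h1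
  have hcard : Multiset.card (numerator p).roots ≤ p.natDegree - 1 := by
    have := MP_4bcb19_an.card_roots_NN (derivative p) h1
    rwa [hd] at this
  have hset : {x : ℝ | deriv (curvature p) x = 0} = ((numerator p).roots.toFinset : Set ℝ) := by
    ext x
    rw [Finset.mem_coe, Multiset.mem_toFinset, mem_roots hN]
    exact MP_4bcb19_an.deriv_kappa_eq_zero_iff p x
  have hfin : {x : ℝ | deriv (curvature p) x = 0}.Finite := by
    rw [hset]; exact Finset.finite_toSet _
  have hn : {x : ℝ | deriv (curvature p) x = 0}.ncard ≤ p.natDegree - 1 := by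
    rw [hset, Set.ncard_coe_finset]
    exact (Multiset.toFinset_card_le _).trans hcard
  have hsub : {x : ℝ | IsLocalExtr (curvature p) x} ⊆ {x : ℝ | deriv (curvature p) x = 0} :=
    fun x hx => IsLocalExtr.deriv_eq_zero hx
  exact ⟨hfin, hn, hfin.subset hsub, (Set.ncard_le_ncard hsub hfin).trans hn, hcard⟩

end Pool.Agent.Results.MP_4bcb19_an.AtMostNMinusOne
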